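import Mathlib
import Pool.Agent.H7.QHook2

/-! The weighted hook-length-two bias `A_L(n) ≥ B_L(n)` for all `L ≥ 1` and `n ≥ 0`. -/

namespace Pool.Agent.Results.MP_d17fc5_co.Bias

open PowerSeries Finset Pool.Agent.H7.QHook

/-- `λ_i` for `i ≥ 1`: the `i`-th largest part, and `0` beyond the number of parts. -/
def row {n : ℕ} (p : n.Partition) (i : ℕ) : ℕ := (p.parts.sort (· ≥ ·)).getD (i - 1) 0

/-- `λ'_j` for `j ≥ 1`: the number of parts that are at least `j`. -/
def col {n : ℕ} (p : n.Partition) (j : ℕ) : ℕ := (p.parts.filter (fun x => j ≤ x)).card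

/-- The hook length `λ_i + λ'_j - i - j + 1` of the cell in row `i` and column `j`. -/
def hook {n : ℕ} (p : n.Partition) (i j : ℕ) : ℤ := (row p i : ℤ) + col p j - i - j + 1

/-- The number of cells `(i, j)` (`i, j ≥ 1`, `j ≤ λ_i`) of the Young diagram with hook
length `2`. All cells of a partition of `n` have `i, j ≤ n`. -/
def hooks2 {n : ℕ} (p : n.Partition) : ℕ :=
  ((Icc 1 n ×ˢ Icc 1 n).filter (fun c => c.2 ≤ row p c.1 ∧ hook p c.1 c.2 = 2)).card

/-- Partitions of `n` into odd parts, each at most `2L - 1`, with exactly `m` hooks of length 2. -/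
def a2 (L m n : ℕ) : ℕ :=
  (univ.filter (fun p : n.Partition =>
    (∀ k ∈ p.parts, Odd k ∧ k ≤ 2 * L - 1) ∧ hooks2 p = m)).card

/-- Partitions of `n` into distinct parts, each at most `L`, with exactly `m` hooks of length 2. -/
def b2 (L m n : ℕ) : ℕ :=
  (univ.filter (fun p : n.Partition =>
    (p.parts.Nodup ∧ ∀ k ∈ p.parts, k ≤ L) ∧ hooks2 p = m)).card

/-- `A_L(n)`; the terms with `m > n * n` vanish since `hooks2 p ≤ n * n`. -/
def A (L n : ℕ) : ℕ := ∑ m ∈ range (n * n + 1), m.choose 2 * a2 L m n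

/-- `B_L(n)`; the terms with `m > n * n` vanish since `hooks2 p ≤ n * n`. -/
def B (L n : ℕ) : ℕ := ∑ m ∈ range (n * n + 1), m.choose 2 * b2 L m n

theorem hooks2_le {n : ℕ} (p : n.Partition) : hooks2 p ≤ n * n := by
  unfold hooks2
  refine (card_filter_le _ _).trans ?_
  simp

theorem sum_fiber {n : ℕ} (P : n.Partition → Prop) [DecidablePred P] :
    ∑ m ∈ range (n * n + 1), m.choose 2 *
      (univ.filter (fun p : n.Partition => P p ∧ hooks2 p = m)).card =
      ∑ p ∈ univ.filter P, (hooks2 p).choose 2 := by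
  rw [← sum_fiberwise_of_maps_to (s := univ.filter P) (t := range (n * n + 1)) (g := hooks2)
    (fun p _ => mem_range.mpr (Nat.lt_succ_of_le (hooks2_le p)))]
  refine sum_congr rfl fun m _ => ?_
  rw [filter_filter, sum_congr rfl (g := fun _ => m.choose 2)
    (fun p hp => by rw [(mem_filter.mp hp).2.2])]
  simp [mul_comm]

theorem row_iff {n : ℕ} (p : n.Partition) (i j : ℕ) (hi : 1 ≤ i) (hj : 1 ≤ j) :
    j ≤ row p i ↔ i ≤ col p j := by
  unfold row col
  rw [getD_iff j hj _ (Multiset.pairwise_sort p.parts (· ≥ ·)) (i - 1)]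
  have : (p.parts.filter (fun x => j ≤ x)).card =
      (p.parts.sort (· ≥ ·)).countP (fun x => decide (j ≤ x)) := by
    rw [← Multiset.countP_eq_card_filter, ← Multiset.coe_countP, Multiset.sort_eq]
  rw [this]; omega

theorem col_succ {n : ℕ} (p : n.Partition) (j : ℕ) :
    col p j = col p (j + 1) + p.parts.count j := by
  unfold col
  induction p.parts using Multiset.induction_on with
  | empty => simp
  | cons a s ih =>
    rw [Multiset.filter_cons, Multiset.filter_cons, Multiset.count_cons, Multiset.card_add,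
      Multiset.card_add, ih]
    split_ifs <;> simp <;> omega

theorem col_le {n : ℕ} (p : n.Partition) (j : ℕ) : col p j ≤ n := by
  unfold col
  refine (Multiset.card_le_card (Multiset.filter_le _ _)).trans ?_
  have := Multiset.card_nsmul_le_sum (s := p.parts) (a := 1) (fun x hx => p.parts_pos hx)
  rw [p.parts_sum] at this
  simpa using this

theorem hooks2_le_gaps {n : ℕ} (p : n.Partition) (hp : p.parts.Nodup) :
    hooks2 p ≤ gaps p.parts.toFinset := by
  have key : ∀ i j : ℕ, 1 ≤ i → 1 ≤ j → j ≤ row p i → hook p i j = 2 →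
      col p j = i ∧ j + 1 ∈ p.parts ∧ j ∉ p.parts := by
    intro i j hi hj hr hh
    unfold hook at hh
    have h0 := (row_iff p i j hi hj).mp hr
    have h1 := row_iff p i (j + 1) hi (by omega)
    have h2 := row_iff p i (j + 2) hi (by omega)
    have c0 := col_succ p j
    have c1 := col_succ p (j + 1)
    have n0 := Multiset.nodup_iff_count_le_one.mp hp j
    rw [show j + 1 + 1 = j + 2 by ring] at c1
    refine ⟨by omega, ?_, ?_⟩
    · rw [← Multiset.one_le_count_iff_mem]; omega
    · rw [← Multiset.count_eq_zero]; omega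
  unfold hooks2 gaps
  refine card_le_card_of_injOn (fun c => c.2 + 1) ?_ ?_
  · intro c hc
    simp only [coe_filter, mem_product, mem_Icc, Set.mem_ofPred_eq] at hc
    obtain ⟨⟨⟨hi, _⟩, hj, _⟩, hr, hh⟩ := hc
    obtain ⟨_, a, b⟩ := key _ _ hi hj hr hh
    simp only [coe_filter, Multiset.mem_toFinset, Set.mem_ofPred_eq, add_tsub_cancel_right]
    exact ⟨a, by omega, b⟩
  · intro c hc d hd hcd
    simp only [coe_filter, mem_product, mem_Icc, Set.mem_ofPred_eq] at hc hd
    obtain ⟨⟨⟨hi, _⟩, hj, _⟩, hr, hh⟩ := hc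
    obtain ⟨⟨⟨hi', _⟩, hj', _⟩, hr', hh'⟩ := hd
    have e2 : c.2 = d.2 := by simpa using hcd
    have a := (key _ _ hi hj hr hh).1
    have b := (key _ _ hi' hj' hr' hh').1
    exact Prod.ext (by rw [← a, ← b, e2]) e2

theorem B_le (L n : ℕ) : (B L n : ℚ) ≤ coeff n (U 2 L) := by
  unfold B b2
  rw [sum_fiber (fun p : n.Partition => p.parts.Nodup ∧ ∀ k ∈ p.parts, k ≤ L)]
  have hc : coeff n (U 2 L) =
      ((∑ S ∈ (Icc 1 L).powerset.filter (fun S => ∑ k ∈ S, k = n), (gaps S).choose 2 : ℕ) : ℚ) := by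
    unfold U
    rw [map_sum, sum_filter]
    push_cast
    refine sum_congr rfl fun S _ => ?_
    rw [← nsmul_eq_mul, map_nsmul, coeff_X_pow]
    by_cases h : ∑ k ∈ S, k = n
    · simp [h]
    · rw [if_neg h, if_neg (fun e => h e.symm)]; simp
  rw [hc, Nat.cast_le]
  set D := univ.filter (fun p : n.Partition => p.parts.Nodup ∧ ∀ k ∈ p.parts, k ≤ L) with hD
  have hinj : Set.InjOn (fun p : n.Partition => p.parts.toFinset) (D : Set n.Partition) := by
    intro p hp q hq h
    have hp' := (mem_filter.mp (mem_coe.mp hp)).2.1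
    have hq' := (mem_filter.mp (mem_coe.mp hq)).2.1
    apply Nat.Partition.ext
    have := congrArg Finset.val h
    simpa [Multiset.toFinset_val, hp'.dedup, hq'.dedup] using this
  calc ∑ p ∈ D, (hooks2 p).choose 2 ≤ ∑ p ∈ D, (gaps p.parts.toFinset).choose 2 :=
        sum_le_sum fun p hp =>
          Nat.choose_le_choose 2 (hooks2_le_gaps p (mem_filter.mp hp).2.1)
    _ = ∑ S ∈ D.image (fun p : n.Partition => p.parts.toFinset), (gaps S).choose 2 :=
        (sum_image (f := fun S => (gaps S).choose 2) hinj).symm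
    _ ≤ _ := by
        refine sum_le_sum_of_subset fun S hS => ?_
        obtain ⟨p, hp, rfl⟩ := mem_image.mp hS
        obtain ⟨h1, h2⟩ := (mem_filter.mp hp).2
        refine mem_filter.mpr ⟨mem_powerset.mpr fun k hk => ?_, ?_⟩
        · have hk' := Multiset.mem_toFinset.mp hk
          exact mem_Icc.mpr ⟨p.parts_pos hk', h2 k hk'⟩
        · rw [Finset.sum, Multiset.toFinset_val, h1.dedup, Multiset.map_id', p.parts_sum]

/-- Partitions of `n` into odd parts at most `2L - 1`. -/
def O (L n : ℕ) : Finset n.Partition :=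
  univ.filter (fun p : n.Partition => ∀ k ∈ p.parts, Odd k ∧ k ≤ 2 * L - 1)

noncomputable def Fo (L : ℕ) : ℚ⟦X⟧ := PowerSeries.mk fun n => ((O L n).card : ℚ)

theorem shift_le (L n : ℕ) (u : Multiset ℕ) (hu : ∀ k ∈ u, Odd k ∧ k ≤ 2 * L - 1) :
    coeff n (X ^ u.sum * Fo L) ≤ (((O L n).filter (fun p => u ≤ p.parts)).card : ℚ) := by
  rw [coeff_X_pow_mul']
  split_ifs with h
  · unfold Fo
    rw [coeff_mk, Nat.cast_le]
    refine card_le_card_of_injOn (fun q : (n - u.sum).Partition =>
      (⟨u + q.parts, fun {i} hi => by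
        rcases Multiset.mem_add.mp hi with a | a
        · exact (hu i a).1.pos
        · exact q.parts_pos a, by rw [Multiset.sum_add, q.parts_sum]; omega⟩ : n.Partition)) ?_ ?_
    · intro q hq
      have hq' := (mem_filter.mp (mem_coe.mp hq)).2
      refine mem_coe.mpr (mem_filter.mpr ⟨mem_filter.mpr ⟨mem_univ _, fun k hk => ?_⟩, ?_⟩)
      · rcases Multiset.mem_add.mp hk with a | a
        · exact hu k a
        · exact hq' k a
      · exact Multiset.le_add_right _ _
    · intro q _ r _ hqr
      apply Nat.Partition.ext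
      have := congrArg Nat.Partition.parts hqr
      simpa using this
  · positivity

theorem Fo_ge (L : ℕ) : NN (Fo L - oddGF L) := by
  induction L with
  | zero =>
    intro n
    unfold Fo oddGF
    rw [prod_range_zero, map_sub, coeff_mk, coeff_one]
    split_ifs with h
    · subst h
      have : 1 ≤ (O 0 0).card := card_pos.mpr ⟨default, by simp [O]⟩
      have : (1 : ℚ) ≤ (O 0 0).card := by exact_mod_cast this
      linarith
    · simp
  | succ L ih =>
    have h1 : NN ((1 - X ^ (2 * L + 1)) * Fo (L + 1) - Fo L) := by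
      intro n
      have hs := shift_le (L + 1) n {2 * L + 1} (by
        intro k hk
        rw [Multiset.mem_singleton] at hk
        subst hk
        exact ⟨odd_two_mul_add_one L, by omega⟩)
      rw [Multiset.sum_singleton] at hs
      have hsplit := card_filter_add_card_filter_not (s := O (L + 1) n)
        (fun p : n.Partition => ({2 * L + 1} : Multiset ℕ) ≤ p.parts)
      have hsub : (O L n).card ≤ ((O (L + 1) n).filter
          (fun p : n.Partition => ¬ ({2 * L + 1} : Multiset ℕ) ≤ p.parts)).card := by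
        refine card_le_card fun p hp => ?_
        have hp' := (mem_filter.mp hp).2
        refine mem_filter.mpr ⟨mem_filter.mpr ⟨mem_univ _, fun k hk => ?_⟩, fun h => ?_⟩
        · exact ⟨(hp' k hk).1, by have := (hp' k hk).2; omega⟩
        · have := (hp' _ (Multiset.singleton_le.mp h)).2
          omega
      have e1 : coeff n (Fo (L + 1)) = ((O (L + 1) n).card : ℚ) := by unfold Fo; rw [coeff_mk]
      have e2 : coeff n (Fo L) = ((O L n).card : ℚ) := by unfold Fo; rw [coeff_mk]
      rw [sub_mul, one_mul, map_sub, map_sub, e1, e2, ← hsplit]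
      push_cast
      have : ((O L n).card : ℚ) ≤ ((O (L + 1) n).filter
          (fun p : n.Partition => ¬ ({2 * L + 1} : Multiset ℕ) ≤ p.parts)).card := by
        exact_mod_cast hsub
      linarith
    have hg := NN_geo (2 * L + 1) (by omega)
    have hi := one_sub_mul_inv (2 * L + 1) (by omega)
    have e : Fo (L + 1) - oddGF (L + 1) = (1 - X ^ (2 * L + 1))⁻¹ *
        (((1 - X ^ (2 * L + 1)) * Fo (L + 1) - Fo L) + (Fo L - oddGF L)) := by
      have : oddGF (L + 1) = oddGF L * (1 - X ^ (2 * L + 1))⁻¹ := by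
        unfold oddGF; rw [prod_range_succ]
      rw [this]
      linear_combination (-(Fo (L + 1))) * hi
    rw [e]
    exact hg.mul (h1.add ih)

theorem hooks2_ge {n : ℕ} (p : n.Partition) (hp : ∀ k ∈ p.parts, Odd k) (N : ℕ) :
    ((range N).filter (fun i => 2 * i + 3 ∈ p.parts)).card +
      (if 2 ≤ p.parts.count 1 then 1 else 0) ≤ hooks2 p := by
  unfold hooks2
  refine le_trans ?_ (card_image_le (f := Prod.snd))
  have hsub1 : ∀ i, 2 * i + 3 ∈ p.parts → 2 * i + 2 ∈ image Prod.snd
      ((Icc 1 n ×ˢ Icc 1 n).filter (fun c => c.2 ≤ row p c.1 ∧ hook p c.1 c.2 = 2)) := by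
    intro i hi
    have c0 := col_succ p (2 * i + 2)
    have c1 := col_succ p (2 * i + 3)
    have z : p.parts.count (2 * i + 2) = 0 := by
      rw [Multiset.count_eq_zero]
      intro h
      have := hp _ h
      rw [Nat.odd_iff] at this; omega
    have o : 1 ≤ p.parts.count (2 * i + 3) := Multiset.one_le_count_iff_mem.mpr hi
    have hl := col_le p (2 * i + 3)
    have hk := Nat.Partition.le_of_mem_parts hi
    rw [show 2 * i + 2 + 1 = 2 * i + 3 by ring] at c0
    have r1 := row_iff p (col p (2 * i + 3)) (2 * i + 3) (by omega) (by omega)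
    have r2 := row_iff p (col p (2 * i + 3)) (2 * i + 3 + 1) (by omega) (by omega)
    refine mem_image.mpr ⟨(col p (2 * i + 3), 2 * i + 2), mem_filter.mpr ⟨?_, ?_, ?_⟩, rfl⟩
    · simp only [mem_product, mem_Icc]; omega
    · simp only; omega
    · unfold hook; simp only; omega
  have hsub2 : 2 ≤ p.parts.count 1 → 1 ∈ image Prod.snd
      ((Icc 1 n ×ˢ Icc 1 n).filter (fun c => c.2 ≤ row p c.1 ∧ hook p c.1 c.2 = 2)) := by
    intro h
    have c0 := col_succ p 1
    have hl := col_le p 1
    have r1 := row_iff p (col p 1 - 1) 1 (by omega) (by omega)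
    have r2 := row_iff p (col p 1 - 1) (1 + 1) (by omega) (by omega)
    refine mem_image.mpr ⟨(col p 1 - 1, 1), mem_filter.mpr ⟨?_, ?_, ?_⟩, rfl⟩
    · simp only [mem_product, mem_Icc]; omega
    · simp only; omega
    · unfold hook; simp only; omega
  have hc : (((range N).filter (fun i => 2 * i + 3 ∈ p.parts)).image (fun i => 2 * i + 2)).card =
      ((range N).filter (fun i => 2 * i + 3 ∈ p.parts)).card :=
    card_image_of_injective _ fun a b h => by simpa using h
  rw [← hc]
  split_ifs with h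
  · rw [← card_insert_of_notMem (a := 1) (by
      intro hh
      obtain ⟨i, _, hi⟩ := mem_image.mp hh
      omega)]
    refine card_le_card fun x hx => ?_
    rcases mem_insert.mp hx with rfl | hx
    · exact hsub2 h
    · obtain ⟨i, hi, rfl⟩ := mem_image.mp hx
      exact hsub1 i (mem_filter.mp hi).2
  · rw [add_zero]
    refine card_le_card fun x hx => ?_
    obtain ⟨i, hi, rfl⟩ := mem_image.mp hx
    exact hsub1 i (mem_filter.mp hi).2

theorem choose_ge {n : ℕ} (p : n.Partition) (hp : ∀ k ∈ p.parts, Odd k) (N : ℕ) :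
    (∑ i ∈ range N, if ({1, 1, 2 * i + 3} : Multiset ℕ) ≤ p.parts then 1 else 0) +
      (∑ b ∈ range N, ∑ a ∈ range b,
        if ({2 * a + 3, 2 * b + 3} : Multiset ℕ) ≤ p.parts then 1 else 0) ≤
      (hooks2 p).choose 2 := by
  refine le_trans ?_ (Nat.choose_le_choose 2 (hooks2_ge p hp N))
  have h2 : (∑ b ∈ range N, ∑ a ∈ range b,
      if ({2 * a + 3, 2 * b + 3} : Multiset ℕ) ≤ p.parts then 1 else 0) ≤
      ((range N).filter (fun i => 2 * i + 3 ∈ p.parts)).card.choose 2 := by
    rw [choose_two_filter]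
    refine sum_le_sum fun b _ => sum_le_sum fun a _ => ?_
    split_ifs with h1 h3
    · exact le_rfl
    · exact absurd ⟨Multiset.mem_of_le h1 (by simp), Multiset.mem_of_le h1 (by simp)⟩ h3
    · exact Nat.zero_le _
    · exact le_rfl
  by_cases h : 2 ≤ p.parts.count 1
  · rw [if_pos h, Nat.choose_succ_succ', Nat.choose_one_right]
    refine add_le_add ?_ h2
    rw [card_filter]
    refine sum_le_sum fun i _ => ?_
    split_ifs with h1 h3
    · exact le_rfl
    · exact absurd (Multiset.mem_of_le h1 (by simp)) h3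
    · exact Nat.zero_le _
    · exact le_rfl
  · rw [if_neg h, add_zero, sum_eq_zero, zero_add]
    · exact h2
    · intro i _
      rw [if_neg]
      intro h1
      have := Multiset.count_le_of_le 1 h1
      simp at this
      omega

theorem A_ge (M n : ℕ) :
    coeff n (Fo (M + 4) * (X ^ 5 * gs 2 (M + 3) + X ^ 8 * B2 (M + 2))) ≤ (A (M + 4) n : ℚ) := by
  unfold A a2
  rw [sum_fiber (fun p : n.Partition => ∀ k ∈ p.parts, Odd k ∧ k ≤ 2 * (M + 4) - 1)]
  change _ ≤ ((∑ p ∈ O (M + 4) n, (hooks2 p).choose 2 : ℕ) : ℚ)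
  have h1 := sum_le_sum (s := O (M + 4) n) fun p hp =>
    choose_ge p (fun k hk => ((mem_filter.mp hp).2 k hk).1) (M + 3)
  refine le_trans ?_ (Nat.cast_le.mpr h1)
  rw [sum_add_distrib, sum_comm, sum_comm (s := O (M + 4) n)]
  rw [sum_range_succ' (fun b => ∑ p ∈ O (M + 4) n, ∑ a ∈ range b,
    if ({2 * a + 3, 2 * b + 3} : Multiset ℕ) ≤ p.parts then 1 else 0) (M + 2)]
  simp only [range_zero, sum_empty, sum_const_zero, add_zero]
  rw [mul_add, map_add, Nat.cast_add]
  refine add_le_add ?_ ?_
  · unfold gs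
    rw [mul_sum, mul_sum, map_sum, Nat.cast_sum]
    refine sum_le_sum fun i hi => ?_
    have hs := shift_le (M + 4) n {1, 1, 2 * i + 3} (by
      intro k hk
      have := mem_range.mp hi
      simp only [Multiset.insert_eq_cons, Multiset.mem_cons, Multiset.mem_singleton] at hk
      rcases hk with rfl | rfl | rfl
      · exact ⟨odd_one, by omega⟩
      · exact ⟨odd_one, by omega⟩
      · exact ⟨⟨i + 1, by ring⟩, by omega⟩)
    rw [card_filter] at hs
    refine le_trans (le_of_eq ?_) hs
    congr 1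
    simp only [Multiset.insert_eq_cons, Multiset.sum_cons, Multiset.sum_singleton]
    ring
  · unfold B2
    rw [mul_sum, mul_sum, map_sum, Nat.cast_sum]
    refine sum_le_sum fun c hc => ?_
    rw [sum_comm, mul_sum, mul_sum, map_sum, Nat.cast_sum]
    refine sum_le_sum fun a ha => ?_
    have hs := shift_le (M + 4) n {2 * a + 3, 2 * (c + 1) + 3} (by
      intro k hk
      have := mem_range.mp hc
      have := mem_range.mp ha
      simp only [Multiset.insert_eq_cons, Multiset.mem_cons, Multiset.mem_singleton] at hk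
      rcases hk with rfl | rfl
      · exact ⟨⟨a + 1, by ring⟩, by omega⟩
      · exact ⟨⟨c + 2, by ring⟩, by omega⟩)
    rw [card_filter] at hs
    refine le_trans (le_of_eq ?_) hs
    congr 1
    simp only [Multiset.insert_eq_cons, Multiset.sum_cons, Multiset.sum_singleton]
    ring

theorem result (L : ℕ) (_hL : 0 < L) (n : ℕ) : B L n ≤ A L n := by
  have hB := B_le L n
  by_cases h : L ≤ 3
  · rw [U_two_small L h, map_zero] at hB
    have : B L n = 0 := by
      have : B L n ≤ 0 := by exact_mod_cast hB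
      omega
    omega
  · obtain ⟨M, rfl⟩ : ∃ M, L = M + 4 := ⟨L - 4, by omega⟩
    have hA := A_ge M n
    have hf := final_series M
    have hB2 : ∀ N, NN (B2 N) := fun N => NN_sum _ _ fun _ _ => NN_sum _ _ fun _ _ => NN_X_pow _
    have hT : NN (∑ a ∈ range (M + 1 + 1), (X : ℚ⟦X⟧) ^ (2 * a + 2 * (M + 1))) :=
      NN_sum _ _ fun _ _ => NN_X_pow _
    have e : B2 (M + 2) = B2 (M + 1) +
        ∑ a ∈ range (M + 1 + 1), (X : ℚ⟦X⟧) ^ (2 * a + 2 * (M + 1)) := by
      unfold B2; rw [sum_range_succ]
    have hfin : NN (Fo (M + 4) * (X ^ 5 * gs 2 (M + 3) + X ^ 8 * B2 (M + 2)) - U 2 (M + 4)) := by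
      have t1 := (Fo_ge (M + 4)).mul
        (((NN_X_pow 5).mul (NN_gs 2 (M + 3))).add ((NN_X_pow 8).mul (hB2 (M + 2))))
      have t2 := (NN_oddGF (M + 4)).mul ((NN_X_pow 8).mul hT)
      have := (t1.add t2).add hf
      convert this using 1
      rw [e]; ring
    have := hfin n
    rw [map_sub] at this
    have : (B (M + 4) n : ℚ) ≤ A (M + 4) n := by linarith
    exact_mod_cast this

end Pool.Agent.Results.MP_d17fc5_co.Bias
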